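import Pool.Agent.MP_fed7c7_lc.H93.Spec

set_option autoImplicit false

/-!
The first track.
-/

namespace Pool.Agent.MP_fed7c7_lc.H90

open Finset Pool.Agent.MP_fed7c7_lc.H93

theorem expand_dig (B Y p : ℕ) :
    Y = ∑ i ∈ range p, dig B Y i * B ^ i + Y / B ^ p * B ^ p := by
  induction p with
  | zero => simp
  | succ p ih =>
    have h := Nat.mod_add_div (Y / B ^ p) B
    rw [Nat.div_div_eq_div_mul, ← pow_succ] at h
    rw [sum_range_succ, add_assoc, dig, pow_succ, ← mul_assoc, mul_right_comm, ← add_mul,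
      ← pow_succ, mul_comm (Y / B ^ (p + 1)) B, h]
    exact ih

theorem sum_lt {B p : ℕ} {D : ℕ → ℕ} (hD : ∀ i < p, D i < B) :
    ∑ i ∈ range p, D i * B ^ i < B ^ p := by
  induction p with
  | zero => simp
  | succ p ih =>
    have h1 := ih fun i hi => hD i (by omega)
    have h2 : (D p + 1) * B ^ p ≤ B * B ^ p := Nat.mul_le_mul_right _ (hD p (by omega))
    rw [sum_range_succ, pow_succ']
    linarith

theorem div_sum {B p : ℕ} {D : ℕ → ℕ} (hB : 0 < B) (hD : ∀ i < p, D i < B) (v : ℕ) :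
    (∑ i ∈ range p, D i * B ^ i + v * B ^ p) / B ^ p = v := by
  rw [Nat.add_mul_div_right _ _ (by positivity), Nat.div_eq_of_lt (sum_lt hD), zero_add]

theorem dig_sum {B p : ℕ} {D : ℕ → ℕ} (hB : 0 < B) (hD : ∀ i < p, D i < B) (v : ℕ) :
    ∀ j < p, dig B (∑ i ∈ range p, D i * B ^ i + v * B ^ p) j = D j := by
  induction p generalizing v with
  | zero => intro j hj; omega
  | succ p ih =>
    intro j hj
    have hD' : ∀ i < p, D i < B := fun i hi => hD i (by omega)
    have e : ∑ i ∈ range (p + 1), D i * B ^ i + v * B ^ (p + 1) =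
        ∑ i ∈ range p, D i * B ^ i + (D p + v * B) * B ^ p := by
      rw [sum_range_succ]
      ring
    rw [e]
    rcases Nat.lt_succ_iff_lt_or_eq.1 hj with h | rfl
    · exact ih hD' _ j h
    · rw [dig, div_sum hB hD', Nat.add_mul_mod_self_right, Nat.mod_eq_of_lt (hD j hj)]

theorem nx_iff {B e Y : ℕ} {U L : ℕ → Prop} (he : e < B) (hL : ∀ d, L d → d < B) :
    Nx B U (· = e) L Y ↔ ∃ (p u : ℕ) (D : ℕ → ℕ), U u ∧ (∀ i < p, L (D i)) ∧
      Y = ∑ i ∈ range p, D i * B ^ i + (e + u * B) * B ^ p := by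
  have hB : 0 < B := by omega
  constructor
  · rintro ⟨p, h1, h2, h3⟩
    refine ⟨p, _, dig B Y, h1, h3, ?_⟩
    have h := expand_dig B Y (p + 1)
    rw [sum_range_succ, show dig B Y p = e from h2] at h
    conv_lhs => rw [h]
    ring
  · rintro ⟨p, u, D, h1, h2, rfl⟩
    have hD : ∀ i < p, D i < B := fun i hi => hL _ (h2 i hi)
    refine ⟨p, ?_, ?_, fun i hi => ?_⟩
    · rwa [pow_succ, ← Nat.div_div_eq_div_mul, div_sum hB hD, Nat.add_mul_div_right _ _ hB,
        Nat.div_eq_of_lt he, zero_add]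
    · change dig B _ p = e
      rw [dig, div_sum hB hD, Nat.add_mul_mod_self_right, Nat.mod_eq_of_lt he]
    · rw [dig_sum hB hD _ i hi]
      exact h2 i hi

theorem nx_zero {B e Y : ℕ} {U : ℕ → Prop} (he : e < B) :
    Nx B U (· = e) (· = 0) Y ↔ ∃ p u : ℕ, U u ∧ Y = (e + u * B) * B ^ p := by
  rw [nx_iff he fun d (hd : d = 0) => by omega]
  constructor
  · rintro ⟨p, u, D, h1, h2, rfl⟩
    refine ⟨p, u, h1, ?_⟩
    rw [sum_eq_zero fun i hi => by rw [show D i = 0 from h2 i (mem_range.1 hi), zero_mul], zero_add]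
  · rintro ⟨p, u, h1, rfl⟩
    exact ⟨p, u, fun _ => 0, h1, fun _ _ => rfl, by simp⟩

theorem z0_iff {B Y : ℕ} (hB : 2 ≤ B) : Z0 B (· = 0) Y ↔ Y = 0 := by
  constructor
  · intro h
    have e := expand_dig B Y Y
    rw [sum_eq_zero fun i _ => by rw [show dig B Y i = 0 from h i, zero_mul],
      Nat.div_eq_of_lt (Nat.lt_pow_self (by omega))] at e
    simpa using e
  · rintro rfl i
    simp [dig]

theorem s1_iff {B r n : ℕ} (hB : 2 * r + 2 < B) : S1 B r n ↔ ∃ (p q k : ℕ) (g : ℕ → ℕ),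
    (∀ i < p, g i < r) ∧ n = ∑ i ∈ range p, (2 * g i + 2) * B ^ i +
      (1 + (1 + (2 * r + 2) * B ^ k * B) * B ^ q * B) * B ^ p := by
  rw [S1, nx_iff (by omega) fun d ⟨g, hg, e⟩ => by omega]
  simp only [nx_zero (show 1 < B by omega), nx_zero hB, z0_iff (show 2 ≤ B by omega)]
  constructor
  · rintro ⟨p, _, D, ⟨q, _, ⟨k, _, rfl, rfl⟩, rfl⟩, h2, rfl⟩
    choose! g hg he using h2
    refine ⟨p, q, k, g, hg, ?_⟩
    rw [sum_congr rfl fun i hi => by rw [he i (mem_range.1 hi)], zero_mul, add_zero]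
  · rintro ⟨p, q, k, g, hg, rfl⟩
    exact ⟨p, _, fun i => 2 * g i + 2, ⟨q, _, ⟨k, 0, rfl, rfl⟩, rfl⟩,
      fun i hi => ⟨g i, hg i hi, rfl⟩, by rw [zero_mul, add_zero]⟩

theorem num_eq (B r f c e a p q k : ℕ) (G : ℕ → ℕ) (h0 : G 0 = f)
    (h1 : ∀ i, 1 ≤ i → i ≤ a → G i = c) (h2 : G (a + 1) = e) :
    num B r (k + 1) (a + 2 + p) (a + 2 + p + q + 1) G =
      B ^ (a + 2) * (∑ i ∈ range p, (2 * G (a + 2 + i) + 2) * B ^ i +
        (1 + (1 + (2 * r + 2) * B ^ k * B) * B ^ q * B) * B ^ p) + inw B f c e a := by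
  have e1 : ∑ i ∈ range (a + 2 + p), lt (a + 2 + p) G i * B ^ i =
      ∑ i ∈ range (a + 2 + p), (2 * G i + 2) * B ^ i :=
    sum_congr rfl fun i hi => by rw [lt, if_pos (mem_range.1 hi)]
  have e2 : lt (a + 2 + p) G (a + 2 + p) = 1 := by simp [lt]
  have e3 : ∑ i ∈ range (a + 2), (2 * G i + 2) * B ^ i = inw B f c e a := by
    rw [sum_range_succ, sum_range_succ', h0, h2, inw, pow_zero, mul_one,
      sum_congr rfl fun i hi => by rw [h1 (i + 1) (by omega) (mem_range.1 hi)]]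
    ring
  have e4 : ∑ i ∈ range p, (2 * G (a + 2 + i) + 2) * B ^ (a + 2 + i) =
      B ^ (a + 2) * ∑ i ∈ range p, (2 * G (a + 2 + i) + 2) * B ^ i := by
    rw [mul_sum]
    exact sum_congr rfl fun i _ => by ring
  rw [num, sum_range_succ, e1, e2, sum_range_add, e3, e4]
  ring

theorem one : StmtONE := by
  intro B r f c e a x hB hf hc he
  have hB' : 2 * r + 2 < B := by
    have h1 : (2 * r + 2) ^ 1 ≤ (2 * r + 2) ^ 4 := Nat.pow_le_pow_right (by omega) (by omega)
    rw [pow_one] at h1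
    omega
  simp only [s1_iff hB']
  constructor
  · rintro ⟨_, ⟨p, q, k, g, hg, rfl⟩, rfl⟩
    let G : ℕ → ℕ := fun i =>
      if i = 0 then f else if i ≤ a then c else if i = a + 1 then e else g (i - (a + 2))
    have h0 : G 0 = f := by simp [G]
    have h1 : ∀ i, 1 ≤ i → i ≤ a → G i = c := fun i h h' => by
      simp only [G]
      rw [if_neg (by omega), if_pos h']
    have h2 : G (a + 1) = e := by simp [G]
    have h3 : ∀ i, G (a + 2 + i) = g i := fun i => by
      simp only [G]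
      rw [if_neg (by omega), if_neg (by omega), if_neg (by omega), Nat.add_sub_cancel_left]
    refine ⟨k + 1, a + 2 + p, a + 2 + p + q + 1, G, by omega, by omega, by omega, h0, h1, h2,
      fun i hi => ?_, ?_⟩
    · simp only [G]
      split_ifs
      · exact hf
      · exact hc
      · exact he
      · exact hg _ (by omega)
    · rw [num_eq B r f c e a p q k G h0 h1 h2]
      simp only [h3]
  · rintro ⟨k, N, m, G, hk, hN, hm, h0, h1, h2, h3, rfl⟩
    obtain ⟨k, rfl⟩ := Nat.exists_eq_add_of_le' hk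
    obtain ⟨p, rfl⟩ := Nat.exists_eq_add_of_le hN
    obtain ⟨q, rfl⟩ := Nat.exists_eq_add_of_lt hm
    exact ⟨_, ⟨p, q, k, fun i => G (a + 2 + i), fun i hi => h3 _ (by omega), rfl⟩,
      num_eq B r f c e a p q k G h0 h1 h2⟩

end Pool.Agent.MP_fed7c7_lc.H90
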